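import Pool.Agent.N418.CZ.Stm

/-!
# Project CZ: lower bounds for the spaces `I` and `Im`
-/

set_option autoImplicit false

namespace Pool.Agent.N527.CZ.Low

open Pool.Agent.N418.CZ Module

/-- renaming of the variables of a multilinear polynomial -/
theorem pol_equiv {k : ℕ} {α β : Type} [Fintype α] [Fintype β] (E : α ≃ β)
    {f : (α → Mk k) → Mk k} (hf : f ∈ Pol k α) :
    (fun x : β → Mk k => f (fun a => x (E a))) ∈ Pol k β := by
  let R : ((α → Mk k) → Mk k) →ₗ[ℝ] ((β → Mk k) → Mk k) :=
    { toFun := fun f x => f (fun a => x (E a))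
      map_add' := fun _ _ => rfl
      map_smul' := fun _ _ => rfl }
  have h : Pol k α ≤ (Pol k β).comap R := by
    unfold Pol PolM
    rw [Submodule.span_le]
    rintro _ ⟨l, hl, rfl⟩
    apply Submodule.subset_span
    refine ⟨l.map E, ?_, ?_⟩
    · rw [← Multiset.map_coe, hl]
      have : (Finset.univ : Finset α).map E.toEmbedding = Finset.univ := Finset.map_univ_equiv E
      rw [← this, Finset.map_val]
      rfl
    · funext x
      simp [R, List.map_map, Function.comp_def]
  exact h hf

/-- the trace of one more variable times a trace function is a trace function -/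
theorem trace_mul_mem {k : ℕ} {ι : Type} [Fintype ι] [DecidableEq ι] {φ : (ι → Mk k) → ℝ}
    (hφ : φ ∈ T k ι) :
    (fun y : Option ι → Mk k => (y none).trace * φ (fun a => y (some a))) ∈ T k (Option ι) := by
  let R : ((ι → Mk k) → ℝ) →ₗ[ℝ] ((Option ι → Mk k) → ℝ) :=
    { toFun := fun φ y => (y none).trace * φ (fun a => y (some a))
      map_add' := fun a b => by funext y; simp [mul_add]
      map_smul' := fun c a => by funext y; simp; ring }
  have h : T k ι ≤ (T k (Option ι)).comap R := by
    unfold T
    rw [Submodule.span_le]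
    rintro _ ⟨σ, rfl⟩
    apply Submodule.subset_span
    refine ⟨Equiv.optionCongr σ, ?_⟩
    funext y
    simp only [tr, R, LinearMap.coe_mk, AddHom.coe_mk]
    rw [Fintype.sum_equiv (Equiv.piOptionEquivProd (β := fun _ : Option ι => Fin k))
      (fun i : Option ι → Fin k => ∏ s, y s (i s) (i (Equiv.optionCongr σ s)))
      (fun p => y none p.1 p.1 * ∏ s, y (some s) (p.2 s) (p.2 (σ s)))
      (fun i => by
        rw [Fintype.prod_option]
        rfl)]
    rw [Fintype.sum_prod_type]
    simp only [← Finset.mul_sum]
    rw [← Finset.sum_mul]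
    rfl
  exact h hφ

theorem t_LOW (hRE : S_RE) : S_LOW := by
  intro k m D hk H n
  constructor
  · intro e he
    obtain ⟨S, hS⟩ : ∃ S : Finset (Fin n), S = Finset.univ \ Finset.univ.image e := ⟨_, rfl⟩
    have hmem : ∀ b, b ∈ S ↔ ¬ b ∈ Finset.univ.image e := by
      intro b
      rw [hS, Finset.mem_sdiff]
      exact ⟨fun h => h.2, fun h => ⟨Finset.mem_univ _, h⟩⟩
    rw [← hS, Submodule.map_le_iff_le_comap]
    rintro _ ⟨φ', hφ', rfl⟩
    rw [Submodule.mem_comap]
    obtain ⟨f, hf, hfx⟩ := H S _ (trace_mul_mem hφ')
    have hbij : Function.Bijective (Sum.elim e (fun a : S => (a : Fin n))) := by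
      constructor
      · rintro (s | a) (s' | a') h
        · exact congrArg Sum.inl (he h)
        · exfalso
          exact (hmem _).1 a'.2 (Finset.mem_image.2 ⟨s, Finset.mem_univ _, h⟩)
        · exfalso
          exact (hmem _).1 a.2 (Finset.mem_image.2 ⟨s', Finset.mem_univ _, h.symm⟩)
        · exact congrArg Sum.inr (Subtype.ext h)
      · intro b
        by_cases hb : b ∈ Finset.univ.image e
        · obtain ⟨s, -, hs⟩ := Finset.mem_image.1 hb
          exact ⟨Sum.inl s, hs⟩
        · exact ⟨Sum.inr ⟨b, (hmem _).2 hb⟩, rfl⟩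
    have hg := pol_equiv (Equiv.ofBijective _ hbij) hf
    change scal k (Fin n) _ ∈ Pol k (Fin n)
    convert! hg using 1
    funext x
    rw [Matrix.ext_iff_trace_mul_right]
    intro z
    rw [hfx]
    simp only [scal, mulD, LinearMap.coe_mk, AddHom.coe_mk, LinearMap.funLeft_apply,
      Option.elim_none, Option.elim_some, Equiv.ofBijective_apply, Sum.elim_inl, Sum.elim_inr,
      Matrix.smul_mul, one_mul, Matrix.trace_smul, smul_eq_mul]
    ring
  · intro e he hl
    obtain ⟨S, hS⟩ : ∃ S : Finset (Fin (n + 1)), S = Finset.univ \ Finset.univ.image e :=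
      ⟨_, rfl⟩
    have hmem : ∀ b, b ∈ S ↔ ¬ b ∈ Finset.univ.image e := by
      intro b
      rw [hS, Finset.mem_sdiff]
      exact ⟨fun h => h.2, fun h => ⟨Finset.mem_univ _, h⟩⟩
    rw [← hS, Submodule.map_le_iff_le_comap]
    rintro _ ⟨φ', hφ', rfl⟩
    rw [Submodule.mem_comap]
    have hlast : Fin.last n ∈ S := by
      rw [hmem]
      intro h
      obtain ⟨s, -, hs⟩ := Finset.mem_image.1 h
      exact hl s hs
    let ι := {a : Fin n // a.castSucc ∈ S}
    have hbF : Function.Bijective
        (fun o : Option ι => (o.elim ⟨Fin.last n, hlast⟩ (fun a => ⟨a.1.castSucc, a.2⟩) : S)) := by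
      constructor
      · rintro (_ | a) (_ | a') h
        · rfl
        · exfalso
          have h2 := congrArg Subtype.val h
          exact (Fin.castSucc_lt_last a'.1).ne h2.symm
        · exfalso
          have h2 := congrArg Subtype.val h
          exact (Fin.castSucc_lt_last a.1).ne h2
        · have h2 := congrArg Subtype.val h
          exact congrArg some (Subtype.ext (Fin.castSucc_injective n h2))
      · rintro ⟨b, hb⟩
        by_cases h : b = Fin.last n
        · subst h
          exact ⟨none, rfl⟩
        · exact ⟨some ⟨b.castPred h, by simpa using hb⟩, by simp⟩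
    let F : Option ι ≃ S := Equiv.ofBijective _ hbF
    have hψ := (hRE k (Option ι) S F).1 φ' hφ'
    obtain ⟨f, hf, hfx⟩ := H ι _ hψ
    have hbij : Function.Bijective
        (Sum.elim (fun s => (e s).castPred (hl s)) (fun a : ι => (a.1 : Fin n))) := by
      constructor
      · rintro (s | a) (s' | a') h
        · simp only [Sum.elim_inl] at h
          refine congrArg Sum.inl (he ?_)
          have h2 := congrArg Fin.castSucc h
          rwa [Fin.castSucc_castPred, Fin.castSucc_castPred] at h2
        · exfalso
          simp only [Sum.elim_inl, Sum.elim_inr] at h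
          refine (hmem _).1 a'.2 (Finset.mem_image.2 ⟨s, Finset.mem_univ _, ?_⟩)
          rw [← h, Fin.castSucc_castPred]
        · exfalso
          simp only [Sum.elim_inl, Sum.elim_inr] at h
          refine (hmem _).1 a.2 (Finset.mem_image.2 ⟨s', Finset.mem_univ _, ?_⟩)
          rw [h, Fin.castSucc_castPred]
        · exact congrArg Sum.inr (Subtype.ext h)
      · intro b
        by_cases hb : b.castSucc ∈ Finset.univ.image e
        · obtain ⟨s, -, hs⟩ := Finset.mem_image.1 hb
          refine ⟨Sum.inl s, ?_⟩
          simp only [Sum.elim_inl]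
          apply Fin.castSucc_injective n
          rw [Fin.castSucc_castPred, hs]
        · exact ⟨Sum.inr ⟨b, (hmem _).2 hb⟩, rfl⟩
    have hg := pol_equiv (Equiv.ofBijective _ hbij) hf
    refine ⟨_, hg, ?_⟩
    funext y
    simp only [trz, mulD, LinearMap.coe_mk, AddHom.coe_mk, LinearMap.funLeft_apply]
    rw [hfx]
    simp only [Equiv.ofBijective_apply, Sum.elim_inl, Sum.elim_inr, Fin.castSucc_castPred]
    congr 1
    congr 1
    funext s
    obtain ⟨o, rfl⟩ := F.surjective s
    rw [F.symm_apply_apply]
    cases o with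
    | none => rfl
    | some a => rfl

end Pool.Agent.N527.CZ.Low
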